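import Pool.Agent.R370.TZ.Q

/-!
# Complex curves in Shimura varieties and their closures over the algebraic numbers

Let `k ⊆ K` be algebraically closed fields, `K` uncountable, for instance the field of the algebraic
numbers and the field of complex numbers. Let `X` be a quasi-projective variety over `K` with a special
structure: a countable collection `𝒮` of subvarieties (irreducible Zariski closed subsets) of `X`,
called special, which contains the irreducible components of the intersections of its members. We
assume that the special subvarieties are defined over `k`. The example to have in mind: `X` is a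
Shimura variety. Let `T` be special, for instance `T = X`.

For a subvariety `V` of `T` let `atypicalDivisors X 𝒮 T V` be the set of the subvarieties of `V` of
codimension one in `V` which are contained in special subvarieties of `T` of codimension at least two
in `T`, and let `kDivisors k X 𝒮 T V` be the set of those which are defined over `k`. If `C` is a curve,
`atypicalDivisors X 𝒮 T C` is the set of the points of `atyp(C)`. Let `hull V` be the smallest
special subvariety which contains `V`, and let `clo k X V` be the smallest closed subset of `X` which
is defined over `k` and contains `V`.

Theorem. (1) Let `C` be a curve over `K` with `hull C = T`, and `V = clo k X C`. All but finitely many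
points of `atyp(C)` lie on the divisors `B` of `V` in `kDivisors k X 𝒮 T V`. No such `B` contains `C`,
and all points of `C ∩ B` are in `atyp(C)`. So `atyp(C)` is the union of a finite set and of the
finite sets `C ∩ B`, and it is finite if `kDivisors k X 𝒮 T V` is finite.
(2) The following are equivalent:
(a) the question Q1 for `T` and all curves over `K`: every curve `C` over `K` with `hull C = T` has
only finitely many points on special subvarieties of `T` of codimension at least two;
(b) every subvariety `V` of `T` which is defined over `k`, with `hull V = T`, of any dimension, has
only finitely many subvarieties of codimension one in `V`, defined over `k`, which are contained in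
special subvarieties of `T` of codimension at least two.

If `C` is not defined over `k` then `dim V ≥ 2`, and the divisors `B` are of positive dimension. For
Shimura varieties of simple groups the geometric part of the Zilber–Pink conjecture (Daw–Ren,
Baldi–Klingler–Ullmo) says that they are not Zariski dense in `V`, so that their number is finite,
and one gets the finiteness of `atyp(C)` for the curves which are not defined over the algebraic
numbers. (The geometric part is not used or proved here.)

The proof: let `r = dim V - 1`. All but finitely many points of `C` have transcendence degree at least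
`r` over `k` (`exists_jump`); the closure over `k` of such a point of `atyp(C)` is a divisor of `V`.
(a) implies (b) for arbitrary `V` over `K` by very general hyperplane sections (`curves_divisors`).
The definitions are in `Pool.Agent.R948.ZPa`, `Pool.Agent.R948.ZPe`, `Pool.Agent.R370.HS.E` and
`Pool.Agent.R370.TZ.Q`; points of projective space are nonzero vectors up to scalars (`line x` is the
point of `x`), subsets are given by their cones.
-/

set_option autoImplicit false

open Pool.Agent.R948.ZP Pool.Agent.R370.HS Pool.Agent.R370.TZ

/-- **Curves over `K` and divisors over `k`.** -/
theorem Pool.Agent.Results.MP_e573c6_ag.ClosuresOfCurves.result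
    (k K : Type) [Field k] [Field K] [Algebra k K] [IsAlgClosed k] [IsAlgClosed K] [Uncountable K]
    (ι : Type) [Fintype ι] (X : Set (ι → K)) (hX : QuasiProjective X)
    (𝒮 : Set (Set (ι → K))) (h𝒮 : SpecialStructure X 𝒮) (hk : ∀ S ∈ 𝒮, Def k S)
    (T : Set (ι → K)) (hT : T ∈ 𝒮) :
    (∀ C, Subvariety X C → dim C = 1 → hull 𝒮 C = T →
      {A | A ∈ atypicalDivisors X 𝒮 T C ∧
        ∀ B ∈ kDivisors k X 𝒮 T (clo k X C), ¬ A ⊆ B}.Finite ∧
      (∀ B ∈ kDivisors k X 𝒮 T (clo k X C), ¬ C ⊆ B ∧
        ∀ x ∈ C ∩ B, line x ∈ atypicalDivisors X 𝒮 T C) ∧
      ((kDivisors k X 𝒮 T (clo k X C)).Finite → (atypicalDivisors X 𝒮 T C).Finite)) ∧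
    ((∀ C, Subvariety X C → dim C = 1 → hull 𝒮 C = T → (atypicalDivisors X 𝒮 T C).Finite) ↔
      (∀ V, Subvariety X V → Def k V → hull 𝒮 V = T → (kDivisors k X 𝒮 T V).Finite)) :=
  ⟨fun _ hC hC1 hCT => ⟨(curve_facts hX h𝒮 hk hT hC hC1 hCT).2,
    (curve_facts hX h𝒮 hk hT hC hC1 hCT).1, curve_of_divisors hX h𝒮 hk hT hC hC1 hCT⟩,
    curves_kdivisors hX h𝒮 hk hT⟩
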