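import Pool.Agent.R370.HS.E

/-!
# The Zilber–Pink conjecture for curves is a statement on divisors

Let `K` be an uncountable algebraically closed field, for instance the field of complex numbers, and
let `X` be a quasi-projective variety over `K` with a special structure: a countable collection `𝒮`
of subvarieties (irreducible Zariski closed subsets) of `X`, called special, which contains the
irreducible components of the intersections of its members; for instance a connected Shimura variety
over `ℂ` with its special subvarieties. `hull 𝒮 A` is the smallest special subvariety containing
`A`. Let `T` be a special subvariety (for instance `T = X`).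

Theorem.
(1) The question for `T` (every curve `C` in `T`, not contained in a special subvariety other than
`T`, has only finitely many points in special subvarieties of `T` of codimension at least two) is
equivalent to: every subvariety `V` of `T` (of any dimension), not contained in a special subvariety
other than `T`, has only finitely many subvarieties of codimension one in `V` which are contained in
special subvarieties of `T` of codimension at least two in `T`.
(2) The same holds for any set `Φ` of special subvarieties of codimension at least two in `T`: all
curves `C` with `hull 𝒮 C = T` have only finitely many points `p` with `hull 𝒮 p ∈ Φ` if and only if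
all subvarieties `V` with `hull 𝒮 V = T` have only finitely many subvarieties `A` of codimension one
in `V` with `hull 𝒮 A ∈ Φ`.
(3) More generally let `d` be an integer, `Φ` any set of special subvarieties and `h` any function on
the special subvarieties, `defect A = h (hull 𝒮 A) - dim A`, and call a subvariety `A` of `V` optimal
if all larger subvarieties of `V` have larger defect. All `V` with `hull 𝒮 V = T` and of dimension
`d` have only finitely many optimal points `p` with `hull 𝒮 p ∈ Φ` if and only if all `V` with
`hull 𝒮 V = T`, of any dimension, have only finitely many optimal subvarieties `A` of codimension
`d` in `V` with `hull 𝒮 A ∈ Φ`.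

So, in the question on finiteness of optimal subvarieties `A` of `V` (Habegger and Pila), the case
of varieties `V` of dimension `d` and points is the case of all `V` and subvarieties `A` of
codimension `d` in `V`.

Idea: sections by very general hyperplanes. If `V` and the special subvarieties are defined over a
countable algebraically closed field `k` and the coefficients of the hyperplane `H` are algebraically
independent over `k`, then the components of the section `A ∩ H` of an optimal subvariety `A` of `V`
of positive dimension are optimal in `V ∩ H`, of the same codimension, with the same smallest special
subvarieties; and `A` is the closure over `k` of each of them. Infinitely many of them are in one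
component of `V ∩ H`. The definitions are in `Pool.Agent.R948.ZPa` and `Pool.Agent.R370.HS.{B,E}`;
points of projective space are nonzero vectors up to scalars, subsets are given by their cones.
-/

set_option autoImplicit false

open Pool.Agent.R948.ZP Pool.Agent.R370.HS

/-- **Curves and divisors.** -/
theorem Pool.Agent.Results.MP_e573c6_ag.CurvesAndDivisors.result
    (K : Type) [Field K] [IsAlgClosed K] [Uncountable K] (ι : Type) [Fintype ι]
    (X : Set (ι → K)) (hX : QuasiProjective X)
    (𝒮 : Set (Set (ι → K))) (h𝒮 : SpecialStructure X 𝒮) (T : Set (ι → K)) (hT : T ∈ 𝒮) :
    ((∀ C, Subvariety X C → dim C = 1 → hull 𝒮 C = T → (atypicalDivisors X 𝒮 T C).Finite) ↔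
      (∀ V, Subvariety X V → hull 𝒮 V = T → (atypicalDivisors X 𝒮 T V).Finite)) ∧
    (∀ Φ : Set (Set (ι → K)), (∀ S ∈ Φ, dim S ≤ dim T - 2) →
      ((∀ C, Subvariety X C → dim C = 1 → hull 𝒮 C = T → (divisorsWith X 𝒮 Φ C).Finite) ↔
        (∀ V, Subvariety X V → hull 𝒮 V = T → (divisorsWith X 𝒮 Φ V).Finite))) ∧
    (∀ (h : Set (ι → K) → ℤ) (Φ : Set (Set (ι → K))) (d : ℤ),
      (∀ V, Subvariety X V → dim V = d → hull 𝒮 V = T → (optimalCodim X 𝒮 h Φ V d).Finite) ↔
        (∀ V, Subvariety X V → hull 𝒮 V = T → (optimalCodim X 𝒮 h Φ V d).Finite)) :=
  curves_divisors hX h𝒮 hT
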