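import Pool.Agent.R424.MP.Pure

/-!
# MP_e573c6_ag: the Zilber-Pink conjecture for almost all curves of families of curves in `Y(1)^n` with
several integral parameters

**Families.** Let `F` be a finite system of polynomials in the coordinates `x ∈ Y(1)^n = ℂ^n` and `N`
auxiliary coordinates `y ∈ ℂ^N`, with the exponents `supp q` and the coefficients `c q β`, which are
polynomials in `1 + s` variables `t = (t_0; t_1, …, t_s)` with integral coefficients. For `t ∈ ℤ^(1+s)` let
`X_t` be the set of the points `x ∈ ℂ^n` for which there is a `y ∈ ℂ^N` such that all polynomials of the
system, with the coefficients evaluated at `t`, vanish at `(x, y)` (`solC`). So `(X_t)` can be any family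
of curves (also space curves, and images of curves, for instance given by parametrizations
`x_i = f_i(t, y)`), or of subvarieties of a given dimension `m`, which depends algebraically on `1 + s`
parameters.

**Tropicalizations at hypersurfaces.** Let `h_1, …, h_M` be polynomials in `t` of positive degree in
`t_0`. Suppose that each coefficient `c` has a well-defined order `e_l(c)` along `h_l`, namely
`c = h_l ^ e_l(c) · g`, where `g` has no common factor of positive degree in `t_0` with `h_l`
(`HasOrd`, `CoprimeTo`; for irreducible `h_l` this is true for each `c ≠ 0`). The tropicalization along
`h_l` is the set of the points `w` of `(ℚ ∪ {∞})^(n+N)` such that for every polynomial of the system the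
minimum of the numbers `e_l (coefficient) + β · w` is attained at two different exponents or is
infinite (`TropAt`).

**The condition** (`GenericC`). A type of special subvarieties of dimension `r` is given by a partition
of some of the `n` coordinates into `r` classes, the other coordinates being constant, and by natural
numbers `d_i > 0`. A point `w` is compatible with it (`CompatibleC`) if the constant coordinates are not
negative, and two coordinates in one class are both not negative, or both negative with
`d_i d_j w_i w_j` a square. The condition: for every type of dimension `r < n - m` there is an `l` such
that no point of the tropicalization along `h_l` is compatible with the type.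

**Theorem.** Suppose that the condition is satisfied, for instance with `m = 1`. Let `Γ` be a finite set of
algebraic numbers, `K ⊇ Γ` a countable field and `ε > 0`. Then for all `B ≥ 1` the member `X_t` has no
atypical intersection with special subvarieties, for all but at most `C · B ^ (s + ε)` of the about
`(2 B)^(1 + s)` integral parameters `t` with all `|t_i| ≤ B`. This means: every irreducible closed subset
of `X_t ∩ Z`, `Z` special of dimension `r`, has dimension at most `r + m - n`, and every point of it has
at most this transcendence degree over `K` (`NoAtypicalC`). For `m = 1` this says that the curve `X_t` does
not meet any special subvariety of codimension at least two, so that the set `atyp(X_t)` of the problem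
is empty, and (codimension 1) that no component of `X_t` is contained in a proper special subvariety.
Here the special subvarieties may be more general than in the problem: their constant coordinates can be
singular moduli or arbitrary numbers which are integral over `ℤ[Γ]` (`SpecialVariety`, a definition of the
helper files `Pool/Agent/Y152/RP`).

The exponent `s` is the correct one for such families: in general the conclusion is false for all `t` on
a hypersurface, hence for about `B^s` parameters.

The theorems of the starting files `FamiliesAlmostAllParameters`, `CurveFamilies`,
`CurvesOverEllipticCurves` of this problem and of `MP_22337f_ag` are about one-parameter families, or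
parameters on a curve, and degenerations at points, and our file `ThreePlaces` is about a single curve;
here the base is the affine space of any dimension, the degenerations are along arbitrary hypersurfaces,
and the exceptional parameters are bounded by `B^(s + ε)`, a saving of the factor `B^(1 - ε)`.

The proof: for all but `O(B^(s+ε))` parameters there is for every `l` a prime number `p`, larger than a
bound which depends only on the family, which divides `h_l(t)`, but none of the `g(t)`: for fixed
`t_1, …, t_s` the numbers `h_l(t)` all of whose large prime factors divide a nonzero multiple of the
resultants are up to small factors products of powers of few prime numbers. At places of `ℂ` above `p`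
all coefficients have the values `e_l(c) · v(h_l(t))`. So the values of the coordinates of a point of `X_t`
are a multiple of a point of the tropicalization along `h_l`. The values of the coordinates of a point of
a special subvariety are compatible with its type, because the values of the `j`-invariants of isogenous
curves with multiplicative reduction have a rational ratio which is the degree of a cyclic isogeny up to
squares, and singular moduli are integral.
-/

set_option autoImplicit false

namespace Pool.Agent.Results.MP_e573c6_ag.ManyParameters

open Pool.Agent.R424.MP

/-- **The Zilber-Pink conjecture for almost all members of families of curves in `Y(1)^n` with several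
integral parameters** (`m = 1`; or of subvarieties of dimension `m`), from the tropicalizations of the
family along finitely many hypersurfaces of the space of parameters. -/
theorem result (κ : Type) [Finite κ] (s n N m M : ℕ)
    (supp : κ → Finset ((Fin n ⊕ Fin N) →₀ ℕ))
    (c : κ → ((Fin n ⊕ Fin N) →₀ ℕ) → Polynomial (MvPolynomial (Fin s) ℤ))
    (h : Fin M → Polynomial (MvPolynomial (Fin s) ℤ)) (hdeg : ∀ l, 0 < (h l).natDegree)
    (e : Fin M → κ → ((Fin n ⊕ Fin N) →₀ ℕ) → ℕ)
    (he : ∀ l q, ∀ β ∈ supp q, HasOrd (h l) (c q β) (e l q β)) (hgen : GenericC m supp e)
    (K : Subfield ℂ) [Countable K] (Γ : Finset ℂ) (hΓ : ∀ γ ∈ Γ, IsAlgebraic ℚ γ)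
    (hΓK : ∀ γ ∈ Γ, γ ∈ K) (ε : ℝ) (hε : 0 < ε) :
    ∃ C : ℝ, ∀ B : ℕ, 1 ≤ B →
      ({z : ℤ × (Fin s → ℤ) | |z.1| ≤ B ∧ (∀ i, |z.2 i| ≤ B) ∧
        ¬ NoAtypicalC (algebraMap (Algebra.adjoin ℤ (Γ : Set ℂ)) ℂ) K m
          (solC supp (fun q β => ((ev z.1 z.2 (c q β) : ℤ) : ℂ)))}.ncard : ℝ) ≤
            C * (B : ℝ) ^ ((s : ℝ) + ε) :=
  manyPure K supp c h hdeg e he hgen Γ hΓ hΓK ε hε

end Pool.Agent.Results.MP_e573c6_ag.ManyParameters
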