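import Pool.Agent.Results.MP_e573c6_ag.FourPlaces
import Pool.Agent.R424.FD.Spread

/-!
# MP_e573c6_ag: curves in products of modular curves which meet no special subvariety of codimension
at least two: a criterion at three places, and at two places for codimension three

The Shimura variety `Y(1)^n` is identified with `ℂ^n` by the elliptic modular function
`jj = j = E₄³ / Δ`. A product `𝒳 = Y_1 × … × Y_n` of modular curves of any levels is finite over it,
and a special subvariety of `𝒳` of codimension at least two lies over one of `Y(1)^n`.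

**Setting** (as in the starting file `FourPlaces`, whose definitions are used). Let `Λ ⊆ ℂ` be a ring,
and let `s_i` be functions integral over `Λ[j]`, `R_i (s_i, j) = 0` with `R_i` monic in the first
variable, for instance modular functions of any level without poles in the upper half plane (level
one: `R_i = S - J`, `s_i = j`). Let `C ⊂ 𝒳` be a curve, and `c_i ∈ Λ`. Any two of the functions
`u_i = c_i s_i` satisfy an equation on `C`, and we suppose that for all pairs `J = {i, i'}` such an
equation `G_J (u_i, u_i') = 0` is given, with coefficients in `Λ`. Let `d_J` be bounds for its degrees.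
The four *corner coefficients* are the coefficients of `1`, `u_i^d`, `u_i'^d'` and `u_i^d u_i'^d'`. We
regard the set `curve` of all points of `Y(1)^n` over which there are numbers `s_i` satisfying these
equations; it contains the image of `C`.

Exponents `e_{l i} > 0`, `l = 0, …, L`, are *independent* (`Independent`) if for sets `A_0, …, A_L` of
coordinates with an even number of elements, not all empty, such that each coordinate is in an even
number of them, the number `q ∏_l ∏_{i ∈ A_l} e_{l i}` is not a square. Here `q` is any positive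
integer which is at most `T ^ (2 ∑ |A_l|)` and has no prime factors larger than `T` (`T` is a bound
for the degrees of the `R_i`, `T = 1` and `q = 1` for level one). For example the `e_{l i}` can be
different primes larger than `T`.

Let `L = 2` and `k = 2` (three places, codimension at least two), or `L = 1` and `k = 3` (two places,
codimension at least three).

**1. Criterion.** Suppose that there are `L + 1` good places (`GoodPlace`): homomorphisms `red` from
`Λ` to fields (reductions modulo prime ideals) such that the corner coefficients and the non-zero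
coefficients of the `R_i` do not reduce to `0`, and `c_i` has the exact order `e_{l i} > 0` at the
`l`-th place, where the `e_{l i}` are independent. Then `C` does not meet any special subvariety of
codimension at least `k` (`Avoids`). The constant coordinates of the special subvarieties can be
special points or arbitrary numbers integral over `Λ`.

**2. One-parameter families.** Let the equations `G_J` and the `c_i` have coefficients in `K₀[t]` for
a field `K₀ ⊂ ℂ`, the `R_i` coefficients in `K₀`. If at `L + 1` numbers `t = α_l ∈ K₀` the corner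
coefficients are not zero and `c_i` has a zero of the order `e_{l i}`, `e` independent, then `C_τ`
does not meet any special subvariety of codimension at least `k` for all transcendental `t = τ` (all
`τ ∈ ℂ` not algebraic over `K₀`, for countable `K₀` all but countably many `τ`).

**3. Almost all scalings.** Let the `G_J` and `R_i` be arbitrary polynomials over `ℂ`, with non-zero
corner coefficients. Then the conclusion holds for all vectors `c` of positive integers whose
exponents at some `L + 1` primes larger than some `D` are independent (`Spread`). This is true for a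
positive proportion of all vectors `c`, and for almost all members of the families
`c_i = ∏_l (k + l)^(a l i)`, `l = 0, …, L`, with independent exponents `a`: the number of exceptions
`k ≤ H` is at most a power of `log H`. Here the constant coordinates can be special points or integral
over the ring generated by a given finite set `Γ` of complex numbers.

So for `atyp (C) = ∅` three places are sufficient, the starting file needs four. The condition on the
exponents is more restrictive than in the starting file.
-/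

set_option autoImplicit false

namespace Pool.Agent.Results.MP_e573c6_ag.ThreePlaces

open H294ZP UpperHalfPlane MvPolynomial Pool.Agent.W282.ZP
open Pool.Agent.Results.MP_e573c6_ag.FourPlaces
  (SpecialVariety valueAt curve DegreeBounds CornersNe GoodPlace evalAt rel_of_locus)

/-- `C` meets no special subvariety of codimension at least `k`. -/
def Avoids {Λ : Type} [CommRing Λ] (f : Λ →+* ℂ) {n : ℕ} (k : ℕ) (C : Set (Fin n → ℂ)) : Prop :=
  ∀ r : ℕ, r + k ≤ n → ∀ Z : SpecialVariety f n r, C ∩ Z.locus = ∅

/-- The exponents at the `L + 1` places are positive and independent modulo squares: if `A l` are sets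
of coordinates with an even number of elements, not all empty, and every coordinate lies in an even
number of them, then `q ∏_l ∏_{i ∈ A l} e l i` is not a square, for any positive integer `q` which
is at most `T` to the power `2 ∑ |A l|` and has no prime factor larger than `T`. -/
def Independent {n : ℕ} (L T : ℕ) (e : Fin (L + 1) → Fin n → ℕ) : Prop :=
  (∀ l i, 0 < e l i) ∧ ∀ A : Fin (L + 1) → Finset (Fin n),
    (∃ l, (A l).Nonempty) → (∀ l, Even (A l).card) →
    (∀ i, Even (Finset.univ.filter fun l => i ∈ A l).card) →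
    ∀ q, 0 < q → (∀ p, p.Prime → p ∣ q → p ≤ T) → q ≤ T ^ (2 * ∑ l, (A l).card) →
      ¬ IsSquare (q * ∏ l, ∏ i ∈ A l, e l i)

/-- `c` is spread out above `D`: its exponents at `L + 1` primes `p l > D` are independent. -/
def Spread {n : ℕ} (L T D : ℕ) (c : Fin n → ℕ) : Prop :=
  ∃ p : Fin (L + 1) → ℕ, (∀ l, (p l).Prime ∧ D < p l) ∧
    Independent L T fun l i => (c i).factorization (p l)

/-! ### Proofs -/

theorem toNat_mul' {a b : ℤ} (ha : 0 < a) (hb : 0 < b) : (a * b).toNat = a.toNat * b.toNat := by
  lift a to ℕ using ha.le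
  lift b to ℕ using hb.le
  rw [← Nat.cast_mul]
  simp only [Int.toNat_natCast]

/-- relations between the coordinates of a point of a special subvariety -/
theorem rel' {Λ : Type} [CommRing Λ] {f : Λ →+* ℂ} {n r : ℕ} (Z : SpecialVariety f n r)
    {x : Fin n → ℂ} {z : Fin r → ℍ} (hz : ∀ i, (Z.cls i = none → x i = Z.const i) ∧
      ∀ l, Z.cls i = some l → ∃ w : ℍ,
      (w : ℂ) * (Z.mat i 1 0 * z l + Z.mat i 1 1) = Z.mat i 0 0 * z l + Z.mat i 0 1 ∧
      x i = jj w) (i j : Fin n) (l : Fin r) (hi : Z.cls i = some l) (hj : Z.cls j = some l) :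
    IsIntegral (Algebra.adjoin ℤ {x i}) (x j) ∧
    Polynomial.eval₂ (Polynomial.aeval (x i) : Polynomial ℂ →ₐ[ℂ] ℂ).toRingHom (x j)
      (Psi ((Z.mat i).det.toNat * (Z.mat j).det.toNat)) = 0 := by
  refine ⟨?_, ?_⟩
  · obtain ⟨w, hw, hxw⟩ := (hz i).2 l hi
    obtain ⟨w', hw', hxw'⟩ := (hz j).2 l hj
    obtain ⟨a, b, c, d, e1, e2⟩ := isogeny_rel (Z.det_pos i) hw hw'
    rw [hxw, hxw']
    exact isogenous_integral w w' a b c d (by
      rw [e1]
      exact mul_pos (Z.det_pos i) (Z.det_pos j)) e2
  · rw [← toNat_mul' (Z.det_pos i) (Z.det_pos j)]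
    exact rel_of_locus Z hz i j l hi hj

theorem hr_of {L k n r : ℕ} (hLk : L = 1 ∧ k = 3 ∨ L = 2 ∧ k = 2) (hr : r + k ≤ n) :
    (L + 1) * 1 + L * r < L * n := by
  rcases hLk with ⟨rfl, rfl⟩ | ⟨rfl, rfl⟩ <;> omega

theorem main {Λ : Type} [CommRing Λ] (f : Λ →+* ℂ) (hf : Function.Injective f) {n T L k : ℕ}
    (hLk : L = 1 ∧ k = 3 ∨ L = 2 ∧ k = 2)
    (R : Fin n → Polynomial (Polynomial Λ)) (hR : ∀ i, (R i).Monic)
    (hT : ∀ i u w, ((R i).coeff u).coeff w ≠ 0 → u ≤ T ∧ w ≤ T)
    (G : ∀ J : Finset (Fin n), MvPolynomial J Λ) (d : ∀ J : Finset (Fin n), J → ℕ)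
    (hd : DegreeBounds G d) (c : Fin n → Λ) (e : Fin (L + 1) → Fin n → ℕ)
    (he : Independent L T e) (P : ∀ l, GoodPlace R G d c (e l)) :
    Avoids f k (curve f R G c) := by
  classical
  have hdom : IsDomain Λ := hf.isDomain f
  let _ : Algebra Λ ℂ := f.toAlgebra
  let inst : ∀ l, Field (P l).F := fun l => (P l).field
  intro r hr Z
  rw [Set.eq_empty_iff_forall_notMem]
  rintro x ⟨⟨s, hs, hG⟩, z, hz⟩
  have hprime : ∀ l, (RingHom.ker (P l).red).IsPrime := fun l => RingHom.ker_isPrime (P l).red
  have hS : AlgebraicIndependent Λ (Empty.elim : Empty → ℂ) :=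
    algebraicIndependent_empty_type_iff.2 hf
  choose V hV1 hV2 hVx using fun l => TH526.ZL.exists_place (RingHom.ker (P l).red) _ hS
  have hunit : ∀ l (a : Λ), (P l).red a ≠ 0 → (V l).valuation (algebraMap Λ ℂ a) = 1 := by
    intro l a ha
    refine le_antisymm (hV1 l a) ?_
    by_contra h
    push Not at h
    exact ha ((hV2 l a).1 h)
  let g : ∀ l, (V l).ValueGroup := fun l => (V l).valuation (algebraMap Λ ℂ (P l).ϖ)
  have hg : ∀ l, g l < 1 := fun l => (hV2 l (P l).ϖ).2 (P l).red_ϖ
  have hgood : ∀ l i, (V l).valuation (algebraMap Λ ℂ (c i) * s i) = 1 →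
      (V l).valuation (s i) * g l ^ e l i = 1 := by
    intro l i h1
    rw [map_mul] at h1
    obtain ⟨a, b, ha, hb, hab⟩ := (P l).order i
    have h5 := congrArg (fun z => (V l).valuation (algebraMap Λ ℂ z)) hab
    simp only [map_mul, map_pow, hunit l a ha, hunit l b hb, one_mul] at h5
    show (V l).valuation (s i) * g l ^ e l i = 1
    rw [← h5, mul_comm]
    exact h1
  have hint : ∀ i, Z.cls i = none → IsIntegral Λ (x i) := by
    intro i hi
    rw [(hz i).1 hi]
    rcases Z.allowed i with ⟨τ, hτ, hc⟩ | h
    · rw [hc]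
      exact (singular_modulus_integral τ hτ).tower_top
    · exact h
  refine Pool.Agent.R424.FD.pointsV (m := 1) hf R hR hT V g hg
    (fun l i u w h0 => hunit l _ ((P l).coeff_ne i u w h0)) e he.1 he.2 (hr_of hLk hr) Z.cls
    (fun i => (Z.mat i).det.toNat) x s (fun i => by
      have := Z.det_pos i
      omega) (fun i hi => (hint i hi).isAlgebraic)
    (fun l i hi => TH526.ZL.mem_of_int (V l) (hV1 l) (hint i hi))
    (fun i j l hi hj => rel' Z hz i j l hi hj) hs ?_
  intro l J hJ
  obtain ⟨t, ht⟩ := TH526.ZL.corner_unit (V l) (G J) (fun u _ => hV1 l _) (d J) (hd _ hJ)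
    (fun I => hunit l _ ((P l).corners J hJ I)) _ (hG _ hJ)
  exact ⟨t, t.2, hgood l t ht⟩

/-- almost all scalings -/
theorem scaled {n T L k : ℕ} (hLk : L = 1 ∧ k = 3 ∨ L = 2 ∧ k = 2)
    (R : Fin n → Polynomial (Polynomial ℂ)) (hR : ∀ i, (R i).Monic)
    (hT : ∀ i u w, ((R i).coeff u).coeff w ≠ 0 → u ≤ T ∧ w ≤ T)
    (G : ∀ J : Finset (Fin n), MvPolynomial J ℂ) (d : ∀ J : Finset (Fin n), J → ℕ)
    (hd : DegreeBounds G d) (hcor : CornersNe (RingHom.id ℂ) G d) (Γ : Finset ℂ) :
    ∃ D : ℕ, ∀ c : Fin n → ℕ, Spread L T D c →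
      Avoids (algebraMap (Algebra.adjoin ℤ (Γ : Set ℂ)) ℂ) k
        (curve (RingHom.id ℂ) R G fun i => (c i : ℂ)) := by
  classical
  obtain ⟨D, hD⟩ := TH526.ZL.exists_val_data R G (fun γ : Γ => (γ : ℂ))
  refine ⟨D, fun c hc r hr Z => ?_⟩
  obtain ⟨p, hp, he, hsq⟩ := hc
  rw [Set.eq_empty_iff_forall_notMem]
  rintro x ⟨⟨s, hs, hG⟩, z, hz⟩
  have hS : AlgebraicIndependent ℂ (Empty.elim : Empty → ℂ) :=
    algebraicIndependent_empty_type_iff.2 (RingHom.injective _)
  choose V hV hVΓ hVR hVG hVx using fun l => hD (p l) (hp l).1 (hp l).2 Empty _ hS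
  have hc0 : ∀ i, c i ≠ 0 := by
    intro i h0
    have h1 : 0 < (c i).factorization (p 0) := he 0 i
    rw [h0] at h1
    simp at h1
  have hgood : ∀ l i, (V l).valuation ((c i : ℂ) * s i) = 1 →
      (V l).valuation (s i) * (V l).valuation (p l : ℂ) ^ (c i).factorization (p l) = 1 := by
    intro l i h1
    rw [map_mul, TH526.ZL.v_nat_pow' (V l) (hp l).1 (hV l) (hc0 i)] at h1
    rw [mul_comm]
    exact h1
  have hint : ∀ i, Z.cls i = none → IsIntegral (Algebra.adjoin ℤ (Γ : Set ℂ)) (x i) := by
    intro i hi
    rw [(hz i).1 hi]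
    rcases Z.allowed i with ⟨τ, hτ, hc⟩ | h
    · rw [hc]
      exact (singular_modulus_integral τ hτ).tower_top
    · exact h
  refine Pool.Agent.R424.FD.pointsV (m := 1) (RingHom.injective _) R hR hT V
    (fun l => (V l).valuation (p l : ℂ)) hV hVR
    (fun l i => (c i).factorization (p l)) he hsq (hr_of hLk hr) Z.cls
    (fun i => (Z.mat i).det.toNat) x s (fun i => by
      have := Z.det_pos i
      omega) (fun i hi => (isAlgebraic_algebraMap (x i) : IsAlgebraic ℂ (algebraMap ℂ ℂ (x i))))
    ?_ (fun i j l hi hj => rel' Z hz i j l hi hj) hs ?_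
  · intro l i hi
    refine (ValuationSubring.valuation_le_one_iff _ _).2
      (W466.ZC.mem_of_integral (V l) ?_ (hint i hi))
    intro w hw
    have hle : Algebra.adjoin ℤ (Γ : Set ℂ) ≤ subalgebraOfSubring (V l).toSubring := by
      refine Algebra.adjoin_le ?_
      intro g hg
      exact (ValuationSubring.valuation_le_one_iff _ _).1 (hVΓ l ⟨g, hg⟩)
    exact hle hw
  · intro l J hJ
    obtain ⟨t, ht⟩ := TH526.ZL.corner_unit (V l) (G J) (fun u hu => (hVG l _ u hu).le) (d J)
      (hd _ hJ) (fun I => hVG l _ _ (mem_support_iff.2 (hcor _ hJ I))) _ (hG _ hJ)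
    exact ⟨t, t.2, hgood l t ht⟩

/-- The three parts are the criterion at `L + 1` places, the transcendental members of one-parameter
families, and almost all scalings of a curve. -/
theorem result (L k : ℕ) (hLk : L = 1 ∧ k = 3 ∨ L = 2 ∧ k = 2) :
    (∀ (Λ : Type) [CommRing Λ] (f : Λ →+* ℂ), Function.Injective f → ∀ (n T : ℕ)
      (R : Fin n → Polynomial (Polynomial Λ)), (∀ i, (R i).Monic) →
      (∀ i u w, ((R i).coeff u).coeff w ≠ 0 → u ≤ T ∧ w ≤ T) →
      ∀ (G : ∀ J : Finset (Fin n), MvPolynomial J Λ) (d : ∀ J : Finset (Fin n), J → ℕ),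
      DegreeBounds G d → ∀ (c : Fin n → Λ) (e : Fin (L + 1) → Fin n → ℕ), Independent L T e →
      (∀ l, Nonempty (GoodPlace R G d c (e l))) → Avoids f k (curve f R G c)) ∧
    (∀ (K₀ : Subfield ℂ) (n T : ℕ) (R : Fin n → Polynomial (Polynomial K₀)), (∀ i, (R i).Monic) →
      (∀ i u w, ((R i).coeff u).coeff w ≠ 0 → u ≤ T ∧ w ≤ T) →
      ∀ (G : ∀ J : Finset (Fin n), MvPolynomial J (Polynomial K₀))
      (d : ∀ J : Finset (Fin n), J → ℕ), DegreeBounds G d →
      ∀ (c : Fin n → Polynomial K₀) (α : Fin (L + 1) → K₀),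
      Independent L T (fun l i => (c i).rootMultiplicity (α l)) →
      (∀ l, CornersNe (evalAt K₀ (α l)) G d) →
      ∀ τ : ℂ, Transcendental K₀ τ → Avoids (evalAt K₀ τ) k (curve (evalAt K₀ τ)
        (fun i => (R i).map (Polynomial.mapRingHom Polynomial.C)) G c)) ∧
    (∀ (n T : ℕ) (R : Fin n → Polynomial (Polynomial ℂ)), (∀ i, (R i).Monic) →
      (∀ i u w, ((R i).coeff u).coeff w ≠ 0 → u ≤ T ∧ w ≤ T) →
      ∀ (G : ∀ J : Finset (Fin n), MvPolynomial J ℂ) (d : ∀ J : Finset (Fin n), J → ℕ),
      DegreeBounds G d → CornersNe (RingHom.id ℂ) G d → ∀ Γ : Finset ℂ, ∃ D : ℕ,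
      (∀ c : Fin n → ℕ, Spread L T D c →
        Avoids (algebraMap (Algebra.adjoin ℤ (Γ : Set ℂ)) ℂ) k
          (curve (RingHom.id ℂ) R G fun i => (c i : ℂ))) ∧
      (∃ δ : ℝ, 0 < δ ∧ ∃ H₀ : ℕ, ∀ H : ℕ, H₀ ≤ H → δ * (H : ℝ) ^ n ≤
        (Set.ncard {c : Fin n → ℕ | (∀ i, 1 ≤ c i ∧ c i ≤ H) ∧
          Avoids (algebraMap (Algebra.adjoin ℤ (Γ : Set ℂ)) ℂ) k
            (curve (RingHom.id ℂ) R G fun i => (c i : ℂ))} : ℝ)) ∧
      ∀ a : Fin (L + 1) → Fin n → ℕ, Independent L T a → ∀ H : ℕ,
        Set.ncard {v : ℕ | 1 ≤ v ∧ v ≤ H ∧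
          ¬ Avoids (algebraMap (Algebra.adjoin ℤ (Γ : Set ℂ)) ℂ) k
            (curve (RingHom.id ℂ) R G
              fun i => ((∏ l : Fin (L + 1), (v + (l : ℕ)) ^ a l i : ℕ) : ℂ))} ≤
          (L + 1) * (Nat.log 2 (H + (L + 1)) + 1) ^ (D + (L + 1) + 1)) := by
  classical
  refine ⟨?_, ?_, ?_⟩
  · intro Λ _ f hf n T R hR hT G d hd c e he P
    exact main f hf hLk R hR hT G d hd c e he fun l => (P l).some
  · intro K₀ n T R hR hT G d hd c α he hcor τ hτ
    have hf : Function.Injective (evalAt K₀ τ) := transcendental_iff_injective.1 hτ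
    refine main (evalAt K₀ τ) hf hLk _ (fun i => (hR i).map _) ?_ G d hd c
      (fun l i => (c i).rootMultiplicity (α l)) he fun l => ?_
    · intro i u w h0
      rw [Polynomial.coeff_map, Polynomial.coe_mapRingHom, Polynomial.coeff_map] at h0
      exact hT i u w fun h1 => h0 (by rw [h1, map_zero])
    · have hev : ∀ a : K₀, evalAt K₀ (α l) (Polynomial.C a) = (a : ℂ) := by
        intro a
        show Polynomial.aeval _ (Polynomial.C a) = _
        rw [Polynomial.aeval_C]
        rfl
      have hev2 : ∀ p : Polynomial K₀, evalAt K₀ (α l) p = ((p.eval (α l) : K₀) : ℂ) := by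
        intro p
        show Polynomial.aeval (algebraMap K₀ ℂ (α l)) p = _
        rw [Polynomial.aeval_algebraMap_apply]
        rfl
      exact
        { F := ℂ
          red := evalAt K₀ (α l)
          corners := hcor l
          coeff_ne := by
            intro i u w h0
            rw [Polynomial.coeff_map, Polynomial.coe_mapRingHom, Polynomial.coeff_map] at h0 ⊢
            rw [hev]
            intro h1
            apply h0
            rw [show ((R i).coeff u).coeff w = 0 from Subtype.ext h1, map_zero]
          ϖ := Polynomial.X - Polynomial.C (α l)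
          red_ϖ := by
            rw [hev2, Polynomial.eval_sub, Polynomial.eval_X, Polynomial.eval_C, sub_self]
            rfl
          order := by
            intro i
            have hc0 : c i ≠ 0 := by
              intro h0
              have := he.1 l i
              change 0 < (c i).rootMultiplicity (α l) at this
              rw [h0, Polynomial.rootMultiplicity_zero] at this
              exact lt_irrefl _ this
            obtain ⟨q, hq1, hq2⟩ :=
              Polynomial.exists_eq_pow_rootMultiplicity_mul_and_not_dvd (c i) hc0 (α l)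
            refine ⟨1, q, ?_, ?_, ?_⟩
            · rw [map_one]
              exact one_ne_zero
            · rw [hev2]
              intro h1
              apply hq2
              rw [Polynomial.dvd_iff_isRoot, Polynomial.IsRoot.def]
              exact Subtype.ext h1
            · rw [one_mul]
              conv_lhs => rw [hq1]
              ring }
  · intro n T R hR hT G d hd hcor Γ
    obtain ⟨D, hD⟩ := scaled hLk R hR hT G d hd hcor Γ
    refine ⟨D, hD, ?_, ?_⟩
    · obtain ⟨δ, hδ, H₀, hH⟩ := Pool.Agent.R424.FD.propE n L T D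
      refine ⟨δ, hδ, H₀, fun H hHH => (hH H hHH).trans ?_⟩
      have hfin : {c : Fin n → ℕ | (∀ i, 1 ≤ c i ∧ c i ≤ H) ∧
          Avoids (algebraMap (Algebra.adjoin ℤ (Γ : Set ℂ)) ℂ) k
            (curve (RingHom.id ℂ) R G fun i => (c i : ℂ))}.Finite := by
        refine (Set.Finite.pi fun _ : Fin n => Set.finite_Icc 1 H).subset ?_
        rintro c ⟨hc, -⟩ i -
        exact Set.mem_Icc.2 (hc i)
      have hsub : {c : Fin n → ℕ | (∀ i, 1 ≤ c i ∧ c i ≤ H) ∧
            Pool.Agent.R424.FD.SpreadE L T D c} ⊆
          {c : Fin n → ℕ | (∀ i, 1 ≤ c i ∧ c i ≤ H) ∧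
            Avoids (algebraMap (Algebra.adjoin ℤ (Γ : Set ℂ)) ℂ) k
              (curve (RingHom.id ℂ) R G fun i => (c i : ℂ))} := by
        rintro c ⟨hc, p, hp, h0, h1⟩
        exact ⟨hc, hD c ⟨p, hp, h0, h1⟩⟩
      have h2 := Set.ncard_le_ncard hsub hfin
      exact_mod_cast h2
    · intro a ha H
      refine (Set.ncard_le_ncard ?_ ?_).trans
        (Pool.Agent.R424.FD.countE (L := L) (T := T) D a ha.1 ha.2 H)
      · rintro v ⟨hk1, hk2, hk3⟩
        refine ⟨hk1, hk2, fun hs => hk3 ?_⟩
        obtain ⟨p, hp, h0, h1⟩ := hs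
        exact hD _ ⟨p, hp, h0, h1⟩
      · exact (Set.finite_Icc 1 H).subset fun v hv => ⟨hv.1, hv.2.1⟩

end Pool.Agent.Results.MP_e573c6_ag.ThreePlaces
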